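import Pool.Agent.V11327.CTfinal

/-!
# The height of the critical beta-splitting tree is asymptotically `2 log n`

Let `u_n(t) = P(D*_n > t)`. It solves
`u_n' = -h_{n-1} u_n + ∑_i n/(2 i (n-i)) (u_i + u_{n-i} - u_i u_{n-i})`, `u_n(0) = 1` for `n ≥ 2`.
The function `n (n-1) e^{-t}` solves the linearised equation and is a super-solution.
For the lower bound, `θ (n (n-1) e^{-t} - 2 B_n e^{-(41/40) t})` is a sub-solution, where `B_n = 0` for
`n ≤ 2` and `B_n = n ∏_{j ≤ n-2} (1 + (21/20)/j)`, of order `n^{41/20}`: the product is an almost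
exact eigenfunction of the linear operator with eigenvalue larger than `41/40`. Shifting time gives
`u_n(t) ≥ θ' > 0` whenever `n (n-1) e^{-t} ≥ 1`. A bootstrap over the splits of the tree (a block of
size `m` splits off a block of size at least `m^{1-δ}` with probability at least `c δ`) improves this
to `P(D*_n ≤ (2 - ε) log n) → 0`.
-/

set_option autoImplicit false

open MeasureTheory ProbabilityTheory Filter Topology Pool.Agent.V11327.CT

namespace Pool.Agent.Results.MP_87a2dc_pr.HeightConstantTwo

/-- `D*_n / log n → 2` in probability. -/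
theorem result : (∀ n : ℕ, IsProbabilityMeasure (heightLaw n)) ∧
    ∀ ε : ℝ, 0 < ε →
      Tendsto (fun n : ℕ => (heightLaw n).real {x | ε < |x / Real.log n - 2|}) atTop (𝓝 0) :=
  ⟨fun n => instProb n, fun _ hε => main hε⟩

end Pool.Agent.Results.MP_87a2dc_pr.HeightConstantTwo
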